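import Pool.Agent.Lib.MP_3ec723_lc.Defs

/-!
# There is an infinite compact Hausdorff space without non-trivial convergent sequences

`X = Ultrafilter ℕ` (Mathlib: compact, `T2`, `TotallyDisconnected`; the sets
`{u | s ∈ u}`, `s : Set ℕ`, form a base of clopen sets, see `ultrafilterBasis_is_basis`).
Proof. Let `x` converge to `p` and not be eventually constant. Passing to a subsequence we may
assume that `x` is injective and `x n ≠ p` for all `n` (if `x n = p` for almost all `n`, it is
eventually constant; a sequence of points different from `p` with limit `p` takes every value only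
finitely often). Choose recursively subsets `A 0, A 1, ...` of `ℕ`, pairwise disjoint, and a
subsequence `y` of `x` with `A n ∈ y n` and `A n ∉ p`: given `A 0, ..., A (n-1) ∉ p`, the complement
`B` of their union belongs to `p`, so `B ∈ x k` for all large `k`; take such a `k` (larger than the
earlier ones), `C ∈ x k` with `C ∉ p` (`x k ≠ p`) and put `A n = B ∩ C`. Let
`V = ⋃ n, A (2 n)`. If `V ∈ p` then `V ∈ y (2 n + 1)` for large `n`, but `A (2 n + 1) ∈ y (2 n + 1)`
is disjoint from `V`; if `V ∉ p` then `Vᶜ ∈ p`, so `Vᶜ ∈ y (2 n)` for large `n`, but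
`A (2 n) ⊆ V` belongs to `y (2 n)`. Contradiction.
-/

set_option autoImplicit false

open Set Filter MeasureTheory Topology
open scoped Cardinal

namespace Pool.Agent.Lib.MP_3ec723_lc

private theorem no_seq (x : ℕ → Ultrafilter ℕ) : ¬ NontrivialConvSeq x := by
  classical
  rintro ⟨⟨p, hp⟩, hc⟩
  have hev : ∀ A : Set ℕ, A ∈ p → ∀ᶠ n in atTop, A ∈ x n := fun A hA =>
    hp.eventually ((ultrafilter_isOpen_basic A).mem_nhds hA)
  have hfr : ∃ᶠ n in atTop, x n ≠ p := by
    rw [Filter.Frequently]
    intro h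
    exact hc ⟨p, h.mono fun n hn => not_not.1 hn⟩
  obtain ⟨f, hf1, hf2⟩ := exists_seq_of_forall_finset_exists
    (fun y : Set ℕ × ℕ => y.1 ∉ p ∧ y.1 ∈ x y.2)
    (fun y z : Set ℕ × ℕ => Disjoint y.1 z.1 ∧ y.2 < z.2) (by
      intro s hs
      set U : Set ℕ := ⋃ y ∈ s, y.1 with hU
      have hUp : U ∉ p := by
        rw [hU]
        intro h
        have := (Ultrafilter.finite_biUnion_mem_iff (f := p) (is := (s : Set (Set ℕ × ℕ)))
          (s := fun y => y.1) s.finite_toSet).1 h
        obtain ⟨y, hy, hyp⟩ := this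
        exact (hs y hy).1 hyp
      have h1 := hev _ (Ultrafilter.compl_mem_iff_notMem.2 hUp)
      have h2 : ∀ᶠ n in atTop, ∀ y ∈ s, y.2 < n :=
        (eventually_all_finset s).2 fun y _ => eventually_gt_atTop y.2
      obtain ⟨k, hk1, hk2, hk3⟩ := (hfr.and_eventually (h1.and h2)).exists
      obtain ⟨C, hC1, hC2⟩ : ∃ C, C ∈ x k ∧ C ∉ p := by
        by_contra h
        push Not at h
        exact hk1 (Ultrafilter.eq_of_le (f := p) (g := x k) h).symm
      refine ⟨(Uᶜ ∩ C, k), ⟨fun h => hC2 (mem_of_superset h inter_subset_right),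
        inter_mem hk2 hC1⟩, fun y hy => ⟨?_, hk3 y hy⟩⟩
      rw [disjoint_left]
      intro n hn hn2
      exact hn2.1 (mem_biUnion hy hn))
  have hmono : StrictMono fun n => (f n).2 := fun m n hmn => (hf2 m n hmn).2
  have hdisj : ∀ m n, m ≠ n → Disjoint (f m).1 (f n).1 := by
    intro m n hmn
    rcases lt_or_gt_of_ne hmn with h | h
    · exact (hf2 m n h).1
    · exact (hf2 n m h).1.symm
  by_cases hV : (⋃ n, (f (2 * n)).1) ∈ p
  · obtain ⟨K, hK⟩ := eventually_atTop.1 (hev _ hV)
    have h1 : K ≤ (f (2 * K + 1)).2 := by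
      have := hmono.id_le (2 * K + 1)
      simp only [id] at this
      omega
    have h2 := inter_mem (hK _ h1) (hf1 (2 * K + 1)).2
    have h3 : (⋃ n, (f (2 * n)).1) ∩ (f (2 * K + 1)).1 = ∅ := by
      rw [eq_empty_iff_forall_notMem]
      rintro z ⟨hz1, hz2⟩
      obtain ⟨n, hn⟩ := mem_iUnion.1 hz1
      exact disjoint_left.1 (hdisj (2 * n) (2 * K + 1) (by omega)) hn hz2
    rw [h3] at h2
    exact Ultrafilter.empty_notMem h2
  · obtain ⟨K, hK⟩ := eventually_atTop.1 (hev _ (Ultrafilter.compl_mem_iff_notMem.2 hV))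
    have h1 : K ≤ (f (2 * K)).2 := by
      have := hmono.id_le (2 * K)
      simp only [id] at this
      omega
    have h2 := inter_mem (hK _ h1) (hf1 (2 * K)).2
    have h3 : (⋃ n, (f (2 * n)).1)ᶜ ∩ (f (2 * K)).1 = ∅ := by
      rw [eq_empty_iff_forall_notMem]
      rintro z ⟨hz1, hz2⟩
      exact hz1 (mem_iUnion.2 ⟨K, hz2⟩)
    rw [h3] at h2
    exact Ultrafilter.empty_notMem h2

theorem exists_space : ∃ (X : Type) (_ : TopologicalSpace X), CompactSpace X ∧ T2Space X ∧
    Infinite X ∧ ∀ x : ℕ → X, ¬ NontrivialConvSeq x :=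
  ⟨Ultrafilter ℕ, inferInstance, inferInstance, inferInstance,
    Infinite.of_injective pure Ultrafilter.pure_injective, no_seq⟩

end Pool.Agent.Lib.MP_3ec723_lc
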