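import Pool.Agent.Lib.MP_3ec723_lc.Defs

/-!
# Null sets of reals and null subsets of `2^ω`

`β x = (Real.fromBinary x : ℝ)` (`Mathlib.Topology.MetricSpace.HausdorffAlexandroff`), or
`β x = ∑' n, (if x n then 1 else 0) / 2 ^ (n + 1)`, is a continuous map `2^ω → [0, 1]`.

`null_preimage`: the image `ν` of the product measure under `β` is Lebesgue measure on `[0, 1]`; it is
enough to show `ν ≤ volume` or `ν ≪ volume`. For `n` and `j` the set of the `x` with
`β x ∈ (j / 2^n, (j+1) / 2^n)` is contained in one cylinder of length `n`, of measure `2^{-n}`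
(`β x = j' / 2^n + 2^{-n} β (shifted x)` where `j'` is given by the first `n` digits), and every
single point has `ν`-measure `0` (it is in at most `2` closed dyadic intervals of length `2^{-n}`,
whose preimage is contained in the union of at most `3` cylinders). So `ν (closed dyadic interval of
length 2^{-n}) ≤ 2^{-n}`, and since `ν` has total mass `1 = ν [0, 1]` there is equality for all of
them inside `[0, 1]`; `Measure.ext_of_...` with a generating `π`-system, or
`ν (Icc a b) ≤ b - a` for all `a ≤ b` (cover by dyadic intervals, let `n → ∞`) and the definition of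
the outer measure.
`exists_avoid`: the sets `β ⁻¹' N i` are null, and fewer than `covN` of them do not cover `2^ω`
(`notMem_of_lt_csInf` with `S = range (fun i => β ⁻¹' N i)`, `#S ≤ #ι`; the family has to be
nonempty only if `ι` is empty: then take any point); take `x = β y` with `y` outside.
-/

set_option autoImplicit false

open Set Filter MeasureTheory Topology
open scoped Cardinal

namespace Pool.Agent.Lib.MP_3ec723_lc

private theorem coin_singleton (b : Bool) : coin {b} = 2⁻¹ := by
  rw [coin, Measure.smul_apply, Measure.add_apply,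
    Measure.dirac_apply' _ (measurableSet_singleton b),
    Measure.dirac_apply' _ (measurableSet_singleton b)]
  cases b <;> simp

/-- The integer with binary digits `ω 0, ..., ω (n-1)`. -/
private def pre (ω : ℕ → Bool) : ℕ → ℤ
  | 0 => 0
  | n + 1 => 2 * pre ω n + (if ω n then 1 else 0)

private theorem pre_inj {ω ω' : ℕ → Bool} : ∀ n, pre ω n = pre ω' n → ∀ i < n, ω i = ω' i
  | 0 => fun _ i hi => absurd hi (Nat.not_lt_zero i)
  | n + 1 => by
    intro h i hi
    simp only [pre] at h
    have h1 : pre ω n = pre ω' n ∧ ω n = ω' n := by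
      cases hω : ω n <;> cases hω' : ω' n <;> rw [hω, hω'] at h <;> simp at h ⊢ <;> omega
    rcases Nat.lt_succ_iff_lt_or_eq.1 hi with h2 | h2
    · exact pre_inj n h1.1 i h2
    · rw [h2]; exact h1.2

private theorem cyl_le (n : ℕ) (j : ℤ) : cantorMeasure {ω | pre ω n = j} ≤ 2⁻¹ ^ n := by
  by_cases h : ∃ ω0, pre ω0 n = j
  · obtain ⟨ω0, h0⟩ := h
    have hsub : {ω | pre ω n = j} ⊆ Set.pi (Finset.range n : Set ℕ) (fun i => {ω0 i}) := by
      intro ω hω i hi
      have hω' : pre ω n = j := hω
      exact pre_inj n (hω'.trans h0.symm) i (Finset.mem_range.1 hi)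
    refine (measure_mono hsub).trans ?_
    rw [cantorMeasure, Measure.infinitePi_pi _ (fun i _ => measurableSet_singleton _)]
    simp only [coin_singleton, Finset.prod_const, Finset.card_range]
    exact le_rfl
  · have h1 : {ω | pre ω n = j} = ∅ := by
      rw [eq_empty_iff_forall_notMem]
      exact fun ω hω => h ⟨ω, hω⟩
    rw [h1, measure_empty]
    exact zero_le

private theorem fromBinary_val (ω : ℕ → Bool) : (Real.fromBinary ω : ℝ) =
    Real.ofDigits (fun i => finTwoEquiv.symm (ω i)) := rfl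

private theorem digit_val (b : Bool) : ((finTwoEquiv.symm b : Fin 2) : ℕ) = if b then 1 else 0 := by
  cases b <;> rfl

private theorem sum_pre (ω : ℕ → Bool) (n : ℕ) : (2 : ℝ) ^ n *
    ∑ i ∈ Finset.range n, Real.ofDigitsTerm (fun i => finTwoEquiv.symm (ω i)) i = (pre ω n : ℝ) := by
  induction n with
  | zero => simp [pre]
  | succ n ih =>
    rw [Finset.sum_range_succ, mul_add, pow_succ, mul_assoc, mul_comm (2 : ℝ), ← mul_assoc, ih,
      Real.ofDigitsTerm, digit_val]
    have h2 : ((2 : ℕ) : ℝ) = 2 := by norm_num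
    have h3 : (2 : ℝ) ^ n ≠ 0 := by positivity
    simp only [pre]
    push_cast
    rw [pow_succ]
    split_ifs
    · field_simp
    · ring

private theorem pre_le (ω : ℕ → Bool) (n : ℕ) : (pre ω n : ℝ) ≤ 2 ^ n * (Real.fromBinary ω : ℝ) ∧
    2 ^ n * (Real.fromBinary ω : ℝ) ≤ pre ω n + 1 := by
  have h := Real.ofDigits_eq_sum_add_ofDigits (fun i => finTwoEquiv.symm (ω i)) n
  have h0 := Real.ofDigits_nonneg (fun i => finTwoEquiv.symm (ω (i + n)))
  have h1 := Real.ofDigits_le_one (fun i => finTwoEquiv.symm (ω (i + n)))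
  have h3 : (2 : ℝ) ^ n ≠ 0 := by positivity
  have h4 : (2 : ℝ) ^ n * (Real.fromBinary ω : ℝ) =
      pre ω n + Real.ofDigits (fun i => finTwoEquiv.symm (ω (i + n))) := by
    rw [fromBinary_val, h, mul_add, sum_pre]
    push_cast
    rw [← mul_assoc, mul_inv_cancel₀ h3, one_mul]
  rw [h4]
  constructor <;> linarith

private theorem ball_le {x r : ℝ} (hr : 0 < r) (hr1 : r ≤ 1) :
    cantorMeasure ((fun x : ℕ → Bool => (Real.fromBinary x : ℝ)) ⁻¹' Metric.closedBall x r) ≤
      4 * volume (Metric.closedBall x r) := by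
  obtain ⟨n, hn1, hn2⟩ := exists_nat_pow_near_of_lt_one hr hr1 (by norm_num : (0 : ℝ) < 1 / 2)
    (by norm_num)
  have h2n : (0 : ℝ) < 2 ^ n := by positivity
  have hn2' : 2 ^ n * r ≤ 1 := by
    have := mul_le_mul_of_nonneg_left hn2 h2n.le
    rwa [← mul_pow, mul_one_div_cancel (two_ne_zero), one_pow] at this
  set F : Finset ℤ := Finset.Icc ⌈2 ^ n * (x - r) - 1⌉ ⌊2 ^ n * (x + r)⌋ with hF
  have hcard : F.card ≤ 4 := by
    rw [hF, Int.card_Icc]
    have h1 := Int.floor_le (2 ^ n * (x + r))
    have h2 := Int.le_ceil (2 ^ n * (x - r) - 1)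
    have h3 : ((⌊2 ^ n * (x + r)⌋ + 1 - ⌈2 ^ n * (x - r) - 1⌉ : ℤ) : ℝ) ≤ 4 := by
      push_cast
      nlinarith
    have h4 : ⌊2 ^ n * (x + r)⌋ + 1 - ⌈2 ^ n * (x - r) - 1⌉ ≤ 4 := by exact_mod_cast h3
    omega
  have hsub : (fun x : ℕ → Bool => (Real.fromBinary x : ℝ)) ⁻¹' Metric.closedBall x r ⊆
      ⋃ j ∈ F, {ω | pre ω n = j} := by
    intro ω hω
    rw [mem_preimage, Real.closedBall_eq_Icc] at hω
    obtain ⟨h1, h2⟩ := pre_le ω n
    refine mem_biUnion (x := pre ω n) ?_ rfl
    rw [hF, Finset.mem_coe, Finset.mem_Icc]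
    constructor
    · rw [Int.ceil_le]
      have := mul_le_mul_of_nonneg_left hω.1 h2n.le
      linarith
    · rw [Int.le_floor]
      have := mul_le_mul_of_nonneg_left hω.2 h2n.le
      linarith
  calc cantorMeasure ((fun x : ℕ → Bool => (Real.fromBinary x : ℝ)) ⁻¹' Metric.closedBall x r)
      ≤ cantorMeasure (⋃ j ∈ F, {ω | pre ω n = j}) := measure_mono hsub
    _ ≤ ∑ j ∈ F, cantorMeasure {ω | pre ω n = j} := measure_biUnion_finset_le F _
    _ ≤ ∑ _j ∈ F, 2⁻¹ ^ n := Finset.sum_le_sum fun j _ => cyl_le n j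
    _ = F.card * 2⁻¹ ^ n := by rw [Finset.sum_const, nsmul_eq_mul]
    _ ≤ 4 * 2⁻¹ ^ n := by
        gcongr
        exact_mod_cast hcard
    _ ≤ 4 * volume (Metric.closedBall x r) := by
        gcongr
        rw [Real.volume_closedBall]
        have h5 : (2⁻¹ : ENNReal) ^ n = ENNReal.ofReal ((1 / 2) ^ n) := by
          rw [ENNReal.ofReal_pow (by norm_num), one_div, ENNReal.ofReal_inv_of_pos (by norm_num)]
          norm_num
        rw [h5]
        apply ENNReal.ofReal_le_ofReal
        rw [pow_succ] at hn1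
        linarith

private theorem qmp : Measure.QuasiMeasurePreserving
    (fun x : ℕ → Bool => (Real.fromBinary x : ℝ)) cantorMeasure volume := by
  have hm : Measurable (fun x : ℕ → Bool => (Real.fromBinary x : ℝ)) :=
    (continuous_subtype_val.comp Real.fromBinary_continuous).measurable
  refine ⟨hm, ?_⟩
  intro s hs
  have : IsProbabilityMeasure (Measure.map (fun x : ℕ → Bool => (Real.fromBinary x : ℝ))
    cantorMeasure) := Measure.isProbabilityMeasure_map hm.aemeasurable
  have key := VitaliFamily.measure_le_of_frequently_le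
    (Besicovitch.vitaliFamily (Measure.map (fun x : ℕ → Bool => (Real.fromBinary x : ℝ))
      cantorMeasure)) ((4 : NNReal) • (volume : Measure ℝ)) Measure.AbsolutelyContinuous.rfl s ?_
  · rw [Measure.smul_apply, hs, smul_zero] at key
    exact le_antisymm key zero_le
  · intro x _
    apply (Besicovitch.tendsto_filterAt _ x).frequently
    apply Eventually.frequently
    filter_upwards [Ioc_mem_nhdsGT (zero_lt_one' ℝ)] with r hr
    rw [Measure.map_apply hm Metric.isClosed_closedBall.measurableSet]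
    exact ball_le hr.1 hr.2

theorem null_preimage {N : Set ℝ} (hN : volume N = 0) :
    cantorMeasure ((fun x : ℕ → Bool => (Real.fromBinary x : ℝ)) ⁻¹' N) = 0 :=
  qmp.preimage_null hN

theorem exists_avoid {ι : Type} (hι : #ι < covN) (N : ι → Set ℝ) (hN : ∀ i, volume (N i) = 0) :
    ∃ x ∈ Icc (0 : ℝ) 1, ∀ i, x ∉ N i := by
  by_contra hcon
  push Not at hcon
  have h1 : covN ≤ #(range fun i => (fun x : ℕ → Bool => (Real.fromBinary x : ℝ)) ⁻¹' N i) := by
    refine csInf_le' ⟨_, ?_, ?_, rfl⟩
    · rintro _ ⟨i, rfl⟩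
      exact null_preimage (hN i)
    · rw [eq_univ_iff_forall]
      intro ω
      obtain ⟨i, hi⟩ := hcon (Real.fromBinary ω : ℝ) (Real.fromBinary ω).2
      exact ⟨_, ⟨i, rfl⟩, hi⟩
  exact absurd (h1.trans Cardinal.mk_range_le) (not_le.2 hι)

end Pool.Agent.Lib.MP_3ec723_lc
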