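import Pool.Agent.Lib.MP_3ec723_lc.Defs

/-!
# Lebesgue density and Borel-Cantelli

`density`: `Besicovitch.ae_tendsto_measure_inter_div_of_measurableSet` for `volume` on `ℝ`: for almost
every `t ∈ E`, `volume (E ∩ closedBall t r) / volume (closedBall t r) → 1` as `r → 0+`, and
`volume (Icc t (t + r) \ E) ≤ volume (closedBall t r \ E)`.
`borel_cantelli`: `volume {x ∈ Icc 0 1 | t + l k * x ∉ E} = (l k)⁻¹ * volume (Icc t (t + l k) \ E)`
(`≤` is enough; `Real.volume_preimage_mul_left` and translation invariance) and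
`measure_limsup_atTop_eq_zero` / `measure_setOf_frequently_eq_zero`.
-/

set_option autoImplicit false

open Set Filter MeasureTheory Topology
open scoped Cardinal

namespace Pool.Agent.Lib.MP_3ec723_lc

theorem density {E : Set ℝ} (hE : MeasurableSet E) : ∀ᵐ t : ℝ, t ∈ E → ∀ ε : ℝ, 0 < ε →
    ∃ δ : ℝ, 0 < δ ∧ ∀ r, 0 < r → r ≤ δ → volume (Icc t (t + r) \ E) ≤ ENNReal.ofReal (ε * r) := by
  filter_upwards [Besicovitch.ae_tendsto_measure_inter_div_of_measurableSet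
    (volume : Measure ℝ) hE.compl] with t ht htE ε hε
  have h0 : (Eᶜ).indicator (1 : ℝ → ENNReal) t = 0 := by
    simp [htE]
  rw [h0] at ht
  have hpos : (0 : ENNReal) < ENNReal.ofReal (ε / 2) := ENNReal.ofReal_pos.2 (half_pos hε)
  have hev := ht.eventually (gt_mem_nhds hpos)
  rw [eventually_iff, mem_nhdsGT_iff_exists_Ioo_subset] at hev
  obtain ⟨u, hu0, hu⟩ := hev
  have hu0' : (0 : ℝ) < u := hu0
  refine ⟨u / 2, half_pos hu0', fun r hr hru => ?_⟩
  have h1 : volume (Eᶜ ∩ Metric.closedBall t r) / volume (Metric.closedBall t r) <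
      ENNReal.ofReal (ε / 2) := hu ⟨hr, by linarith⟩
  rw [Real.volume_closedBall] at h1
  have h2 : ENNReal.ofReal (2 * r) ≠ 0 := by
    rw [Ne, ENNReal.ofReal_eq_zero, not_le]; linarith
  have h3 : volume (Eᶜ ∩ Metric.closedBall t r) ≤ ENNReal.ofReal (ε / 2) * ENNReal.ofReal (2 * r) := by
    rw [← ENNReal.div_le_iff h2 ENNReal.ofReal_ne_top]
    exact h1.le
  rw [← ENNReal.ofReal_mul (half_pos hε).le] at h3
  have h4 : ε / 2 * (2 * r) = ε * r := by ring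
  rw [h4] at h3
  refine le_trans (measure_mono ?_) h3
  rintro x ⟨⟨hx1, hx2⟩, hxE⟩
  refine ⟨hxE, ?_⟩
  rw [Real.closedBall_eq_Icc]
  exact ⟨by linarith, hx2⟩

private theorem vol_scale (A : Set ℝ) (t : ℝ) {l : ℝ} (hl : 0 < l) :
    volume {x : ℝ | t + l * x ∈ A} = ENNReal.ofReal l⁻¹ * volume A := by
  have h1 : {x : ℝ | t + l * x ∈ A} = (fun x => l * x) ⁻¹' ((fun y => t + y) ⁻¹' A) := rfl
  rw [h1, Real.volume_preimage_mul_left hl.ne', measure_preimage_add, abs_of_pos (inv_pos.2 hl)]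

theorem borel_cantelli {E : Set ℝ} (hE : MeasurableSet E) {t : ℝ} {l : ℕ → ℝ} (hl : ∀ k, 0 < l k)
    (h : ∀ᶠ k in atTop, volume (Icc t (t + l k) \ E) ≤ ENNReal.ofReal ((1 / 2) ^ k * l k)) :
    volume {x : ℝ | x ∈ Icc (0 : ℝ) 1 ∧ ¬ ∀ᶠ k in atTop, t + l k * x ∈ E} = 0 := by
  obtain ⟨K, hK⟩ := eventually_atTop.1 h
  have hb : ∀ i, volume {x : ℝ | x ∈ Icc (0 : ℝ) 1 ∧ t + l (i + K) * x ∉ E} ≤
      ENNReal.ofReal ((1 / 2) ^ i) := by
    intro i
    have h1 := hK (i + K) (Nat.le_add_left K i)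
    have hlp := hl (i + K)
    have h2 : {x : ℝ | x ∈ Icc (0 : ℝ) 1 ∧ t + l (i + K) * x ∉ E} ⊆
        {x : ℝ | t + l (i + K) * x ∈ Icc t (t + l (i + K)) \ E} := by
      rintro x ⟨⟨hx0, hx1⟩, hxE⟩
      refine ⟨⟨?_, ?_⟩, hxE⟩
      · nlinarith
      · nlinarith
    refine (measure_mono h2).trans ?_
    rw [vol_scale _ _ hlp]
    refine (mul_le_mul_right h1 _).trans ?_
    rw [← ENNReal.ofReal_mul (inv_pos.2 hlp).le]
    apply ENNReal.ofReal_le_ofReal
    have h3 : (l (i + K))⁻¹ * ((1 / 2) ^ (i + K) * l (i + K)) = (1 / 2 : ℝ) ^ (i + K) := by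
      field_simp
    rw [h3, pow_add]
    have h4 : ((1 : ℝ) / 2) ^ K ≤ 1 := pow_le_one₀ (by norm_num) (by norm_num)
    have h5 : (0 : ℝ) ≤ (1 / 2) ^ i := by positivity
    nlinarith
  have hsum : ∑' i, volume {x : ℝ | x ∈ Icc (0 : ℝ) 1 ∧ t + l (i + K) * x ∉ E} ≠ ⊤ := by
    refine ne_top_of_le_ne_top ?_ (ENNReal.tsum_le_tsum hb)
    rw [← ENNReal.ofReal_tsum_of_nonneg (fun i => by positivity)]
    · exact ENNReal.ofReal_ne_top
    · exact summable_geometric_of_lt_one (by norm_num) (by norm_num)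
  have h0 := measure_setOfPred_frequently_eq_zero hsum
  refine measure_mono_null ?_ h0
  rintro x ⟨hx, hxn⟩
  show ∃ᶠ i in atTop, x ∈ Icc (0 : ℝ) 1 ∧ t + l (i + K) * x ∉ E
  rw [not_eventually] at hxn
  rw [frequently_atTop] at hxn ⊢
  intro a
  obtain ⟨b, hb1, hb2⟩ := hxn (a + K)
  refine ⟨b - K, by omega, hx, ?_⟩
  rwa [Nat.sub_add_cancel (by omega)]

/-- affine preimages of null sets are null -/
theorem null_affine {N : Set ℝ} (hN : volume N = 0) {t l : ℝ} (hl : 0 < l) :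
    volume {x : ℝ | t + l * x ∈ N} = 0 := by
  rw [vol_scale _ _ hl, hN, mul_zero]

end Pool.Agent.Lib.MP_3ec723_lc
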