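import Pool.Agent.Lib.MP_3ec723_lc.Point
import Pool.Agent.Lib.MP_3ec723_lc.Cov
import Pool.Agent.Lib.MP_3ec723_lc.Dens

/-!
# A random point and a random sequence converging to it
-/

set_option autoImplicit false

open Set Filter MeasureTheory Topology
open scoped Cardinal

universe u

namespace Pool.Agent.Lib.MP_3ec723_lc

theorem exists_bound {ι : Type} (h : #ι < bNum) (φ : ι → ℕ → ℕ) :
    ∃ g : ℕ → ℕ, ∀ i, ∀ᶠ n in atTop, φ i n ≤ g n := by
  by_contra hcon
  push Not at hcon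
  have h1 : bNum ≤ #(range φ) := by
    apply csInf_le'
    refine ⟨range φ, fun g => ?_, rfl⟩
    obtain ⟨i, hi⟩ := hcon g
    refine ⟨φ i, mem_range_self i, ?_⟩
    rw [not_eventually]
    exact hi.mono (fun n hn => not_le.2 hn)
  exact absurd (h1.trans Cardinal.mk_range_le) (not_le.2 h)

private theorem mk_Ix {ι : Type} [Infinite ι] : #(Ix ι) = #ι := by
  have h1 : #(ι ⊕ (ℚ × ℚ)) = #ι := by
    rw [Cardinal.mk_sum, Cardinal.lift_id, Cardinal.lift_id]
    exact Cardinal.add_eq_left (Cardinal.aleph0_le_mk ι)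
      ((Cardinal.mk_le_aleph0 (α := ℚ × ℚ)).trans (Cardinal.aleph0_le_mk ι))
  have h2 : #(Ix ι) = #(Finset (ι ⊕ (ℚ × ℚ))) * #(Finset (ι ⊕ (ℚ × ℚ))) := by
    simp only [Ix, Cardinal.mk_prod, Cardinal.lift_id]
  rw [h2, Cardinal.mk_finset_of_infinite, h1]
  exact Cardinal.mul_eq_self (Cardinal.aleph0_le_mk ι)

theorem exists_convSeq {X : Type u} [TopologicalSpace X] [CompactSpace X] [T2Space X] {f : X → ℝ}
    (hf : Continuous f) (hsurj : ∀ r ∈ Icc (0 : ℝ) 1, ∃ x, f x = r) {ι : Type} [Infinite ι]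
    (U : ι → Set X) (hU : TopologicalSpace.IsTopologicalBasis (range U)) (h1 : #ι < covN)
    (h2 : #ι < bNum) : ∃ x : ℕ → X, NontrivialConvSeq x := by
  classical
  obtain ⟨x0, hx0⟩ := hsurj 0 (by simp)
  let s : ℝ → X := fun r => if h : r ∈ Icc (0 : ℝ) 1 then (hsurj r h).choose else x0
  have hs : ∀ x ∈ Icc (0 : ℝ) 1, f (s x) = x := by
    intro x hx
    simp only [s, dif_pos hx]
    exact (hsurj x hx).choose_spec
  obtain ⟨E, N, hE, hN, hpt⟩ := exists_point hf hs U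
  have hι0 : ℵ₀ ≤ #ι := Cardinal.aleph0_le_mk ι
  -- choice of `t`
  obtain ⟨t, ht, htA⟩ := exists_avoid (ι := Ix ι ⊕ (ι ⊕ Unit))
    (by
      rw [Cardinal.mk_sum, Cardinal.lift_id, Cardinal.lift_id, mk_Ix, Cardinal.mk_sum,
        Cardinal.lift_id, Cardinal.lift_id]
      have h3 : #ι + #Unit = #ι := Cardinal.add_eq_left hι0
        ((Cardinal.mk_le_aleph0 (α := Unit)).trans hι0)
      rw [h3, Cardinal.add_eq_self hι0]
      exact h1)
    (Sum.elim N (Sum.elim (fun i => {t | ¬ (t ∈ E i → ∀ ε : ℝ, 0 < ε → ∃ δ : ℝ, 0 < δ ∧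
      ∀ r, 0 < r → r ≤ δ → volume (Icc t (t + r) \ E i) ≤ ENNReal.ofReal (ε * r))})
      (fun _ => {1})))
    (by
      rintro (j | i | _)
      · exact hN j
      · exact ae_iff.1 (density (hE i))
      · exact measure_singleton _)
  have htN : ∀ j, t ∉ N j := fun j => htA (Sum.inl j)
  have htD : ∀ i, t ∈ E i → ∀ ε : ℝ, 0 < ε → ∃ δ : ℝ, 0 < δ ∧
      ∀ r, 0 < r → r ≤ δ → volume (Icc t (t + r) \ E i) ≤ ENNReal.ofReal (ε * r) := by
    intro i
    have := htA (Sum.inr (Sum.inl i))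
    simp only [Sum.elim_inr, Sum.elim_inl, mem_ofPred_eq, not_not] at this
    exact this
  have ht1 : t < 1 := by
    have := htA (Sum.inr (Sum.inr ()))
    simp only [Sum.elim_inr, mem_singleton_iff] at this
    exact lt_of_le_of_ne ht.2 this
  obtain ⟨p, hfp, hp1, hp2⟩ := hpt t ht htN
  -- the scale
  have hφ : ∀ i : ι, ∃ φ : ℕ → ℕ, t ∈ E i → ∀ k : ℕ, ∀ r : ℝ, 0 < r → r ≤ 1 / ((φ k : ℝ) + 1) →
      volume (Icc t (t + r) \ E i) ≤ ENNReal.ofReal ((1 / 2) ^ k * r) := by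
    intro i
    by_cases hti : t ∈ E i
    · have := fun k : ℕ => htD i hti ((1 / 2) ^ k) (by positivity)
      choose δ hδ0 hδ using this
      refine ⟨fun k => ⌈1 / δ k⌉₊, fun _ k r hr0 hr => hδ k r hr0 (hr.trans ?_)⟩
      have h3 : 1 / δ k ≤ (⌈1 / δ k⌉₊ : ℝ) := Nat.le_ceil _
      have h4 : (0 : ℝ) < (⌈1 / δ k⌉₊ : ℝ) + 1 := by positivity
      rw [div_le_iff₀ h4]
      rw [div_le_iff₀ (hδ0 k)] at h3
      nlinarith [hδ0 k]
    · exact ⟨fun _ => 0, fun h => absurd h hti⟩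
  choose φ hφ using hφ
  obtain ⟨g, hg⟩ := exists_bound h2 φ
  let l : ℕ → ℝ := fun k => min (1 / ((g k : ℝ) + 1)) (1 - t)
  have hl0 : ∀ k, 0 < l k := fun k => lt_min (by positivity) (sub_pos.2 ht1)
  have hl1 : ∀ k, l k ≤ 1 - t := fun k => min_le_right _ _
  have hlφ : ∀ i, t ∈ E i → ∀ᶠ k in atTop,
      volume (Icc t (t + l k) \ E i) ≤ ENNReal.ofReal ((1 / 2) ^ k * l k) := by
    intro i hti
    filter_upwards [hg i] with k hk
    apply hφ i hti k _ (hl0 k)
    refine (min_le_left _ _).trans ?_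
    have h3 : (φ i k : ℝ) ≤ g k := by exact_mod_cast hk
    have h4 : (0 : ℝ) < (φ i k : ℝ) + 1 := by positivity
    exact one_div_le_one_div_of_le h4 (by linarith)
  -- choice of `x`
  obtain ⟨x, hx, hxA⟩ := exists_avoid (ι := ι ⊕ ((Ix ι × ℕ) ⊕ Unit))
    (by
      have h3 : #ι * #ℕ = #ι := Cardinal.mul_eq_left hι0
        ((Cardinal.mk_le_aleph0 (α := ℕ)).trans hι0) (Cardinal.mk_ne_zero ℕ)
      have h4 : #ι + #Unit = #ι := Cardinal.add_eq_left hι0
        ((Cardinal.mk_le_aleph0 (α := Unit)).trans hι0)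
      have h5 : #(Ix ι × ℕ) = #ι := by
        rw [← h3, ← mk_Ix (ι := ι)]
        simp only [Cardinal.mk_prod, Cardinal.lift_id]
      have h6 : #(ι ⊕ ((Ix ι × ℕ) ⊕ Unit)) = #ι + (#(Ix ι × ℕ) + #Unit) := by
        simp only [Cardinal.mk_sum, Cardinal.lift_id]
      rw [h6, h5, h4, Cardinal.add_eq_self hι0]
      exact h1)
    (Sum.elim (fun i => if t ∈ E i then
        {x : ℝ | x ∈ Icc (0 : ℝ) 1 ∧ ¬ ∀ᶠ k in atTop, t + l k * x ∈ E i} else ∅)
      (Sum.elim (fun q => {x : ℝ | t + l q.2 * x ∈ N q.1}) (fun _ => {0})))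
    (by
      rintro (i | q | _)
      · by_cases hti : t ∈ E i
        · simp only [Sum.elim_inl, if_pos hti]
          exact borel_cantelli (hE i) hl0 (hlφ i hti)
        · simp only [Sum.elim_inl, if_neg hti, measure_empty]
      · exact null_affine (hN q.1) (hl0 q.2)
      · exact measure_singleton _)
  have hx1 : ∀ i, t ∈ E i → ∀ᶠ k in atTop, t + l k * x ∈ E i := by
    intro i hti
    have := hxA (Sum.inl i)
    simp only [Sum.elim_inl, if_pos hti, mem_ofPred_eq, not_and, not_not] at this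
    exact this hx
  have hx2 : ∀ k j, t + l k * x ∉ N j := fun k j => hxA (Sum.inr (Sum.inl (j, k)))
  have hx0 : 0 < x := by
    have := hxA (Sum.inr (Sum.inr ()))
    simp only [Sum.elim_inr, mem_singleton_iff] at this
    exact lt_of_le_of_ne hx.1 (Ne.symm this)
  have htk : ∀ k, t + l k * x ∈ Icc (0 : ℝ) 1 := by
    intro k
    have h3 := hl0 k
    have h4 := hl1 k
    have h5 := ht.1
    have h6 := hx.2
    constructor <;> nlinarith
  choose y hy1 hy2 hy3 using fun k => hpt _ (htk k) (hx2 k)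
  have hlim : Tendsto y atTop (𝓝 p) := by
    rw [tendsto_def]
    intro W hW
    obtain ⟨V, hV, hpV, hVW⟩ := hU.exists_closure_subset hW
    obtain ⟨i, rfl⟩ := hV
    have hti : t ∈ E i := hp1 i ((hU.isOpen (mem_range_self i)).mem_nhds hpV)
    filter_upwards [hx1 i hti] with k hk
    exact hVW (hy3 k i hk)
  refine ⟨y, ⟨p, hlim⟩, ?_⟩
  rintro ⟨c, hc⟩
  have h3 : c = p := by
    have : Tendsto (fun _ : ℕ => c) atTop (𝓝 p) := hlim.congr' hc
    exact tendsto_nhds_unique tendsto_const_nhds this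
  obtain ⟨k, hk⟩ := hc.exists
  have h4 := hy1 k
  rw [hk, h3, hfp] at h4
  have h5 := mul_pos (hl0 k) hx0
  linarith

end Pool.Agent.Lib.MP_3ec723_lc
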