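import Mathlib

/-!
# The cardinals `𝔟`, `cov(𝒩)`, `non(𝒩)` and `𝔷`: definitions

`2^ω` is `ℕ → Bool`; `covN`, `nonN`, `bNum` live in `Cardinal.{0}`, and `weight` and `zNum` are
defined in every universe.
-/

set_option autoImplicit false

open Set Filter MeasureTheory Topology
open scoped Cardinal

universe u

namespace Pool.Agent.Lib.MP_3ec723_lc

/-- The measure on `{0, 1}` giving mass `1/2` to each point. -/
noncomputable def coin : Measure Bool :=
  (2⁻¹ : ENNReal) • (Measure.dirac true + Measure.dirac false)

instance : IsProbabilityMeasure coin := by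
  constructor
  rw [coin, Measure.smul_apply, Measure.add_apply, Measure.dirac_apply' _ MeasurableSet.univ,
    Measure.dirac_apply' _ MeasurableSet.univ]
  simp only [indicator_univ, Pi.one_apply, smul_eq_mul, one_add_one_eq_two]
  exact ENNReal.inv_mul_cancel (by norm_num) (by norm_num)

/-- The standard product measure on `2^ω`. -/
noncomputable def cantorMeasure : Measure (ℕ → Bool) := Measure.infinitePi (fun _ => coin)

instance : IsProbabilityMeasure cantorMeasure := by
  unfold cantorMeasure; infer_instance

/-- `cov(𝒩)`: the least cardinality of a family of null subsets of `2^ω` with union `2^ω`. -/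
noncomputable def covN : Cardinal.{0} :=
  sInf {κ | ∃ S : Set (Set (ℕ → Bool)), (∀ N ∈ S, cantorMeasure N = 0) ∧ ⋃₀ S = univ ∧ #S = κ}

/-- `non(𝒩)`: the least cardinality of a non-null subset of `2^ω`. -/
noncomputable def nonN : Cardinal.{0} :=
  sInf {κ | ∃ A : Set (ℕ → Bool), cantorMeasure A ≠ 0 ∧ #A = κ}

/-- The bounding number `𝔟`: the least cardinality of a family of functions `ℕ → ℕ` such that no
`g : ℕ → ℕ` dominates all of them eventually. -/
noncomputable def bNum : Cardinal.{0} :=
  sInf {κ | ∃ S : Set (ℕ → ℕ), (∀ g : ℕ → ℕ, ∃ f ∈ S, ¬ ∀ᶠ n in atTop, f n ≤ g n) ∧ #S = κ}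

/-- The weight of a topological space: the least cardinality of a base. -/
noncomputable def weight (X : Type u) [TopologicalSpace X] : Cardinal.{u} :=
  sInf {κ | ∃ B : Set (Set X), TopologicalSpace.IsTopologicalBasis B ∧ #B = κ}

/-- A non-trivial convergent sequence: it converges and is not eventually constant. -/
def NontrivialConvSeq {X : Type u} [TopologicalSpace X] (x : ℕ → X) : Prop :=
  (∃ p, Tendsto x atTop (𝓝 p)) ∧ ¬ ∃ c, ∀ᶠ n in atTop, x n = c

/-- The cardinal `𝔷`: the least weight of an infinite compact Hausdorff space without non-trivial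
convergent sequences, for spaces in `Type u` (in `Type 0` this is the cardinal `𝔷`; compact
Hausdorff spaces of weight `κ` embed into `[0, 1] ^ κ`, so the choice of `u` makes no
difference). -/
noncomputable def zNum : Cardinal.{u} :=
  sInf {κ | ∃ (X : Type u) (_ : TopologicalSpace X), CompactSpace X ∧ T2Space X ∧ Infinite X ∧
    (∀ x : ℕ → X, ¬ NontrivialConvSeq x) ∧ weight X = κ}

end Pool.Agent.Lib.MP_3ec723_lc
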