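import Pool.Agent.Lib.MP_3ec723_lc.Defs

/-!
# Scattered compact spaces contain convergent sequences

Proof. Let `X' = {p | AccPt p (𝓟 univ)}` be the set of the non-isolated points of `X`; it is closed,
and nonempty since `X` is compact and infinite (otherwise `X` is discrete and compact, so finite).
Suppose there is no nonempty perfect set. Then `X'` is not preperfect, so there are `p ∈ X'` and an
open `V ∋ p` with `V ∩ X' = {p}`. Let `W` be a closed neighbourhood of `p` with `W ⊆ V`
(`T2` + compact, so regular). `W` is infinite (`p` is an accumulation point of `X` and `X` is `T1`),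
and every point of `W` other than `p` is isolated in `X`. Let `x : ℕ → X` be an injective sequence
with values in `W \ {p}`. Then `x → p`: for an open `U ∋ p` the set `W \ U` is compact and consists of
isolated points, so it is finite; so `x n ∈ U` for almost all `n`. `x` is injective, so not
eventually constant.
-/

set_option autoImplicit false

open Set Filter MeasureTheory Topology
open scoped Cardinal

universe u

namespace Pool.Agent.Lib.MP_3ec723_lc

theorem exists_perfect_or_convSeq (X : Type u) [TopologicalSpace X] [CompactSpace X] [T2Space X]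
    [Infinite X] : (∃ x : ℕ → X, NontrivialConvSeq x) ∨ ∃ P : Set X, Perfect P ∧ P.Nonempty := by
  by_cases hP : ∃ P : Set X, Perfect P ∧ P.Nonempty
  · exact Or.inr hP
  left
  set X' : Set X := {p | ¬ IsOpen ({p} : Set X)} with hX'
  have hcl : IsClosed X' := by
    rw [← isOpen_compl_iff, isOpen_iff_mem_nhds]
    intro p hp
    have hp' : IsOpen ({p} : Set X) := by
      by_contra hcon
      exact hp hcon
    refine Filter.mem_of_superset (hp'.mem_nhds (mem_singleton p)) ?_
    intro q hq
    rw [mem_singleton_iff] at hq
    rw [hq]
    exact hp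
  have hne : X'.Nonempty := by
    by_contra hcon
    rw [Set.not_nonempty_iff_eq_empty] at hcon
    have hd : DiscreteTopology X := by
      rw [discreteTopology_iff_isOpen_singleton]
      intro p
      by_contra hop
      have : p ∈ X' := hop
      rw [hcon] at this
      exact this
    exact not_finite_iff_infinite.2 ‹Infinite X› finite_of_compact_of_discrete
  have hnp : ¬ Preperfect X' := fun hpre => hP ⟨X', ⟨hcl, hpre⟩, hne⟩
  unfold Preperfect at hnp
  push Not at hnp
  obtain ⟨p, hp, hacc⟩ := hnp
  rw [accPt_iff_nhds] at hacc
  push Not at hacc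
  obtain ⟨U, hU, hUp⟩ := hacc
  obtain ⟨W, hW, hWc, hWU⟩ := exists_mem_nhds_isClosed_subset hU
  have hbot : NeBot (𝓝[≠] p) := by
    rw [neBot_iff]
    intro hb
    exact hp ((isOpen_singleton_iff_punctured_nhds p).2 hb)
  have hWinf : W.Infinite := infinite_of_mem_nhds p hW
  have hWinf2 : (W \ {p}).Infinite := hWinf.sdiff (finite_singleton p)
  have hiso : ∀ q ∈ W, q ≠ p → IsOpen ({q} : Set X) := by
    intro q hq hqp
    by_contra hcon
    exact hqp (hUp q ⟨hWU hq, hcon⟩)
  let e := hWinf2.natEmbedding
  refine ⟨fun n => (e n : X), ⟨p, ?_⟩, ?_⟩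
  · rw [tendsto_nhds]
    intro V hV hpV
    have hK : IsCompact (W \ V) := (hWc.isCompact).diff hV
    obtain ⟨t, -, ht⟩ := hK.elim_nhds_subcover (fun x => {x}) (fun x hx => by
      refine (hiso x hx.1 ?_).mem_nhds (mem_singleton x)
      rintro rfl
      exact hx.2 hpV)
    have hfin : (W \ V).Finite := by
      refine (t.finite_toSet).subset fun x hx => ?_
      have := ht hx
      simp only [mem_iUnion, mem_singleton_iff, exists_prop] at this
      obtain ⟨y, hy, hxy⟩ := this
      rw [hxy]
      exact hy
    have hinj : Function.Injective (fun n => (e n : X)) := fun m n hmn =>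
      e.injective (Subtype.ext hmn)
    have hfin2 : {n : ℕ | (e n : X) ∈ W \ V}.Finite := hfin.preimage hinj.injOn
    rw [← Nat.cofinite_eq_atTop]
    change (fun n => (e n : X)) ⁻¹' V ∈ cofinite
    rw [mem_cofinite]
    refine hfin2.subset fun n hn => ⟨(e n).2.1, hn⟩
  · rintro ⟨c, hc⟩
    rw [eventually_atTop] at hc
    obtain ⟨N, hN⟩ := hc
    have h1 := hN N le_rfl
    have h2 := hN (N + 1) (by omega)
    have h3 : e N = e (N + 1) := Subtype.ext (h1.trans h2.symm)
    have h4 := e.injective h3
    omega

end Pool.Agent.Lib.MP_3ec723_lc
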