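import Pool.Agent.Lib.MP_3ec723_lc.Defs

/-!
# A compact Hausdorff space with a nonempty perfect subset maps onto the unit interval

Proof. (1) If `P` is perfect and `U` is open with `U ∩ P` nonempty, then there are open `U₀, U₁`
with `closure U₀, closure U₁ ⊆ U` disjoint and `U₀ ∩ P, U₁ ∩ P` nonempty (two different points of
`U ∩ P`, `T2`, compact so normal). (2) Recursion on `List Bool` (or on `n` for functions
`Fin n → Bool`, or on `(ℕ → Bool) → ℕ → ...`) gives open sets `U s` with `U s ∩ P ≠ ∅`,
`closure (U (b :: s)) ⊆ U s`, `closure (U (false :: s))` and `closure (U (true :: s))` disjoint,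
`U [] = univ`.
(3) `F = ⋂ n, ⋃ s of length n, closure (U s)` is closed; every `x ∈ F` has for every `n` exactly one
`s` of length `n` with `x ∈ closure (U s)`, and these `s` extend each other; this defines
`h : F → (ℕ → Bool)`, continuous (each set of level `n` is relatively clopen: there are finitely many
disjoint closed sets), and surjective by compactness
(`IsCompact.nonempty_iInter_of_directed_nonempty_isCompact_isClosed`).
(4) `g = Real.fromBinary ∘ h : F → unitInterval` is continuous and surjective
(`Real.fromBinary_continuous`, `Real.fromBinary_surjective` in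
`Mathlib.Topology.MetricSpace.HausdorffAlexandroff`); extend it to `X → ℝ` by Tietze
(`ContinuousMap.exists_extension`, `X` is normal, `F` is closed).

Formalised variant: a scheme `C s` of disjoint perfect sets (`Perfect.splitting`), Urysohn functions
`g n` separating the two halves of level `n + 1`, and `f = ∑ g n / 2 ^ (n + 1)`.
-/

set_option autoImplicit false

open Set Filter MeasureTheory Topology
open scoped Cardinal

universe u

namespace Pool.Agent.Lib.MP_3ec723_lc

section Surj

variable {X : Type u} [TopologicalSpace X]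

/-- nonempty perfect sets -/
private def SurjPf (X : Type u) [TopologicalSpace X] : Type u := {C : Set X // Perfect C ∧ C.Nonempty}

private theorem Surj_split [T25Space X] (C : SurjPf X) :
    ∃ D : Bool → SurjPf X, (∀ b, (D b).1 ⊆ C.1) ∧ Disjoint (D false).1 (D true).1 := by
  obtain ⟨C0, C1, ⟨h1, h2, h3⟩, ⟨h4, h5, h6⟩, h7⟩ := C.2.1.splitting C.2.2
  refine ⟨fun b => if b then ⟨C1, h4, h5⟩ else ⟨C0, h1, h2⟩, fun b => ?_, ?_⟩
  · cases b
    · exact h3
    · exact h6
  · exact h7

private noncomputable def Surj_S [T25Space X] (C : SurjPf X) : List Bool → SurjPf X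
  | [] => C
  | b :: s => (Surj_split (Surj_S C s)).choose b

private theorem Surj_sub [T25Space X] (C : SurjPf X) (b : Bool) (s : List Bool) :
    (Surj_S C (b :: s)).1 ⊆ (Surj_S C s).1 :=
  (Surj_split (Surj_S C s)).choose_spec.1 b

private theorem Surj_disj [T25Space X] (C : SurjPf X) (s : List Bool) :
    Disjoint (Surj_S C (false :: s)).1 (Surj_S C (true :: s)).1 :=
  (Surj_split (Surj_S C s)).choose_spec.2

private theorem Surj_disj_cons [T25Space X] (C : SurjPf X) (s : List Bool) {b b' : Bool}
    (h : b ≠ b') : Disjoint (Surj_S C (b :: s)).1 (Surj_S C (b' :: s)).1 := by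
  cases b <;> cases b'
  · exact absurd rfl h
  · exact Surj_disj C s
  · exact (Surj_disj C s).symm
  · exact absurd rfl h

private theorem Surj_disj_all [T25Space X] (C : SurjPf X) (s : List Bool) :
    ∀ s' : List Bool, s.length = s'.length → s ≠ s' →
      Disjoint (Surj_S C s).1 (Surj_S C s').1 := by
  induction s with
  | nil =>
    intro s' hl hne
    cases s' with
    | nil => exact absurd rfl hne
    | cons b t => simp at hl
  | cons b t ih =>
    intro s' hl hne
    cases s' with
    | nil => simp at hl
    | cons b' t' =>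
      by_cases ht : t = t'
      · subst ht
        exact Surj_disj_cons C t fun hb => hne (by rw [hb])
      · refine Disjoint.mono (Surj_sub C b t) (Surj_sub C b' t') (ih t' ?_ ht)
        simpa using hl

/-- the branch of `b` up to level `n` -/
private def Surj_L (b : ℕ → Bool) : ℕ → List Bool
  | 0 => []
  | n + 1 => b n :: Surj_L b n

private theorem Surj_L_length (b : ℕ → Bool) (n : ℕ) : (Surj_L b n).length = n := by
  induction n with
  | zero => rfl
  | succ n ih => simp [Surj_L, ih]

/-- the union of the sets of level `n + 1` with last digit `b` -/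
private noncomputable def Surj_A [T25Space X] (C : SurjPf X) (b : Bool) (n : ℕ) : Set X :=
  ⋃ s ∈ {s : List Bool | s.length = n}, (Surj_S C (b :: s)).1

private theorem Surj_A_closed [T25Space X] (C : SurjPf X) (b : Bool) (n : ℕ) :
    IsClosed (Surj_A C b n) := by
  refine (List.finite_length_eq Bool n).isClosed_biUnion fun s _ => ?_
  exact (Surj_S C (b :: s)).2.1.closed

private theorem Surj_A_disj [T25Space X] (C : SurjPf X) (n : ℕ) :
    Disjoint (Surj_A C false n) (Surj_A C true n) := by
  rw [Set.disjoint_left]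
  intro x hx hx'
  unfold Surj_A at hx hx'
  rw [Set.mem_iUnion₂] at hx hx'
  obtain ⟨s, hs, hxs⟩ := hx
  obtain ⟨s', hs', hxs'⟩ := hx'
  have hs : s.length = n := hs
  have hs' : s'.length = n := hs'
  by_cases h : s = s'
  · subst h
    exact Set.disjoint_left.1 (Surj_disj C s) hxs hxs'
  · exact Set.disjoint_left.1 (Surj_disj_all C s s' (hs.trans hs'.symm) h)
      (Surj_sub C _ _ hxs) (Surj_sub C _ _ hxs')

private theorem Surj_A_mem [T25Space X] (C : SurjPf X) (b : ℕ → Bool) (n : ℕ) {x : X}
    (hx : x ∈ (Surj_S C (Surj_L b (n + 1))).1) : x ∈ Surj_A C (b n) n := by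
  unfold Surj_A
  rw [Set.mem_iUnion₂]
  exact ⟨Surj_L b n, Surj_L_length b n, hx⟩

private theorem Surj_branch [T25Space X] [CompactSpace X] (C : SurjPf X) (b : ℕ → Bool) :
    ∃ x, ∀ n, x ∈ Surj_A C (b n) n := by
  have h := IsCompact.nonempty_iInter_of_sequence_nonempty_isCompact_isClosed
    (fun n => (Surj_S C (Surj_L b n)).1) (fun n => Surj_sub C (b n) (Surj_L b n))
    (fun n => (Surj_S C (Surj_L b n)).2.2) (Surj_S C (Surj_L b 0)).2.1.closed.isCompact
    (fun n => (Surj_S C (Surj_L b n)).2.1.closed)
  obtain ⟨x, hx⟩ := h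
  rw [Set.mem_iInter] at hx
  exact ⟨x, fun n => Surj_A_mem C b n (hx (n + 1))⟩

end Surj

theorem exists_continuous_onto_Icc {X : Type u} [TopologicalSpace X] [CompactSpace X] [T2Space X]
    {P : Set X} (hP : Perfect P) (hne : P.Nonempty) :
    ∃ f : X → ℝ, Continuous f ∧ ∀ r ∈ Icc (0 : ℝ) 1, ∃ x, f x = r := by
  have hC : SurjPf X := ⟨P, hP, hne⟩
  have hg : ∀ n : ℕ, ∃ g : C(X, ℝ), EqOn g 0 (Surj_A hC false n) ∧ EqOn g 1 (Surj_A hC true n) ∧
      ∀ x, g x ∈ Icc (0 : ℝ) 1 := fun n =>
    exists_continuous_zero_one_of_isClosed (Surj_A_closed hC false n) (Surj_A_closed hC true n)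
      (Surj_A_disj hC n)
  choose g hg0 hg1 hgI using hg
  refine ⟨fun x => ∑' n, g n x * ((2 : ℝ) ^ (n + 1))⁻¹, ?_, ?_⟩
  · refine continuous_tsum (u := fun n : ℕ => ((2 : ℝ) ^ (n + 1))⁻¹)
      (fun n => (g n).continuous.mul continuous_const) ?_ ?_
    · have h1 : Summable fun n : ℕ => (1 / 2 : ℝ) * (1 / 2) ^ n := summable_geometric_two.mul_left _
      refine h1.congr fun n => ?_
      rw [pow_succ, mul_inv, one_div, inv_pow, mul_comm]
    · intro n x
      have h1 := (hgI n x).1
      have h2 := (hgI n x).2
      rw [Real.norm_eq_abs, abs_of_nonneg (by positivity)]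
      exact mul_le_of_le_one_left (by positivity) h2
  · intro r hr
    obtain ⟨d, -, hd⟩ := (Real.ofDigits_SurjOn (b := 2) (by norm_num)) hr
    obtain ⟨x, hx⟩ := Surj_branch hC (fun n => decide (d n = 1))
    refine ⟨x, ?_⟩
    rw [← hd]
    unfold Real.ofDigits
    refine tsum_congr fun n => ?_
    unfold Real.ofDigitsTerm
    congr 1
    have h1 := hx n
    rcases Fin.exists_fin_two.1 ⟨d n, rfl⟩ with h | h
    · rw [h] at h1 ⊢
      have : decide ((0 : Fin 2) = 1) = false := rfl
      rw [this] at h1
      rw [hg0 n h1]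
      simp
    · rw [h] at h1 ⊢
      have : decide ((1 : Fin 2) = 1) = true := rfl
      rw [this] at h1
      rw [hg1 n h1]
      simp

end Pool.Agent.Lib.MP_3ec723_lc
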