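import Pool.Agent.Lib.MP_3ec723_lc.Conv
import Pool.Agent.Lib.MP_3ec723_lc.Scat
import Pool.Agent.Lib.MP_3ec723_lc.Surj
import Pool.Agent.Lib.MP_3ec723_lc.BetaN

/-!
# `min {𝔟, cov(𝒩)} ≤ 𝔷`
-/

set_option autoImplicit false

open Set Filter MeasureTheory Topology
open scoped Cardinal

universe u

namespace Pool.Agent.Lib.MP_3ec723_lc

theorem infinite_basis {X : Type u} [TopologicalSpace X] [T2Space X] [Infinite X] {B : Set (Set X)}
    (hB : TopologicalSpace.IsTopologicalBasis B) : Infinite B := by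
  by_contra hcon
  rw [not_infinite_iff_finite] at hcon
  let F : X → Set B := fun x => {b | x ∈ b.1}
  have hF : Function.Injective F := by
    intro x y hxy
    by_contra hne
    obtain ⟨V, hV, hxV, hyV⟩ : ∃ V : Set X, IsOpen V ∧ x ∈ V ∧ y ∉ V :=
      ⟨{y}ᶜ, isOpen_compl_singleton, hne, fun h => h rfl⟩
    obtain ⟨b, hb, hxb, hbV⟩ := hB.exists_subset_of_mem_open hxV hV
    have h1 : (⟨b, hb⟩ : B) ∈ F x := hxb
    rw [hxy] at h1
    exact hyV (hbV h1)
  exact (Finite.of_injective F hF).not_infinite inferInstance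

theorem weight_mem {X : Type u} [TopologicalSpace X] :
    ∃ B : Set (Set X), TopologicalSpace.IsTopologicalBasis B ∧ #B = weight X :=
  csInf_mem (s := {κ | ∃ B : Set (Set X), TopologicalSpace.IsTopologicalBasis B ∧ #B = κ})
    ⟨_, _, TopologicalSpace.isTopologicalBasis_opens, rfl⟩

/-- A compact Hausdorff space with an infinite base smaller than `𝔟` and `cov(𝒩)` contains a
non-trivial convergent sequence. -/
theorem exists_convSeq_of_weight {X : Type u} [TopologicalSpace X] [CompactSpace X] [T2Space X]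
    [Infinite X] (h : weight X < Cardinal.lift.{u} (min bNum covN)) :
    ∃ x : ℕ → X, NontrivialConvSeq x := by
  rcases exists_perfect_or_convSeq X with h1 | ⟨P, hP, hne⟩
  · exact h1
  obtain ⟨f, hf, hsurj⟩ := exists_continuous_onto_Icc hP hne
  obtain ⟨B, hB, hBw⟩ := weight_mem (X := X)
  haveI := infinite_basis hB
  rw [← hBw] at h
  obtain ⟨c, hc⟩ := Cardinal.mem_range_lift_of_le h.le
  rw [← hc, Cardinal.lift_lt] at h
  obtain ⟨e⟩ : Nonempty (c.out ≃ B) := by
    rw [← Cardinal.lift_mk_eq', Cardinal.mk_out, hc, Cardinal.lift_id']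
  haveI : Infinite c.out := e.infinite_iff.2 inferInstance
  refine exists_convSeq hf hsurj (fun i : c.out => (e i).1) ?_ ?_ ?_
  · have h1 : range (fun i : c.out => (e i).1) = B := by
      rw [show (fun i : c.out => (e i).1) = Subtype.val ∘ e from rfl, range_comp, e.range_eq_univ,
        image_univ, Subtype.range_coe]
    rw [h1]
    exact hB
  · rw [Cardinal.mk_out]
    exact h.trans_le (min_le_right _ _)
  · rw [Cardinal.mk_out]
    exact h.trans_le (min_le_left _ _)

theorem exists_space_u : ∃ (X : Type u) (_ : TopologicalSpace X), CompactSpace X ∧ T2Space X ∧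
    Infinite X ∧ ∀ x : ℕ → X, ¬ NontrivialConvSeq x := by
  obtain ⟨X, τ, h1, h2, h3, h4⟩ := exists_space
  let e : ULift.{u} X ≃ₜ X := Homeomorph.ulift
  refine ⟨ULift.{u} X, inferInstance, e.symm.compactSpace, inferInstance, inferInstance, ?_⟩
  rintro x ⟨⟨p, hp⟩, hx⟩
  refine h4 (e ∘ x) ⟨⟨e p, (e.continuous.tendsto p).comp hp⟩, ?_⟩
  rintro ⟨c, hc⟩
  refine hx ⟨e.symm c, hc.mono (fun n hn => ?_)⟩
  rw [← hn]
  exact (e.symm_apply_apply _).symm

theorem min_le_zNum : Cardinal.lift.{u} (min bNum covN) ≤ zNum.{u} := by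
  apply le_csInf
  · obtain ⟨X, τ, h1, h2, h3, h4⟩ := exists_space_u.{u}
    exact ⟨weight X, X, τ, h1, h2, h3, h4, rfl⟩
  · rintro κ ⟨X, τ, h1, h2, h3, h4, rfl⟩
    by_contra hcon
    rw [not_le] at hcon
    obtain ⟨x, hx⟩ := exists_convSeq_of_weight hcon
    exact h4 x hx

end Pool.Agent.Lib.MP_3ec723_lc
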