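import Pool.Agent.Lib.MP_3ec723_lc.Sik

/-!
# The points of the space given by random reals
-/

set_option autoImplicit false

open Set Filter MeasureTheory Topology
open scoped Cardinal

universe u

namespace Pool.Agent.Lib.MP_3ec723_lc

/-- Measurable sets representing arbitrary sets of reals, compatible with finite intersections and
complements up to null sets. -/
theorem exists_rep {ι : Type} (A : ι → Set ℝ) : ∃ E : ι → Set ℝ, (∀ i, MeasurableSet (E i)) ∧
    (∀ i, MeasurableSet (A i) → E i = A i) ∧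
    ∀ S T : Finset ι, (⋂ i ∈ S, A i) ∩ (⋂ i ∈ T, (A i)ᶜ) ∩ Icc (0 : ℝ) 1 = ∅ →
      volume ((⋂ i ∈ S, E i) ∩ (⋂ i ∈ T, (E i)ᶜ) ∩ Icc (0 : ℝ) 1) = 0 := by
  classical
  obtain ⟨I, h0, hsub, hun, hnull, hrep⟩ :=
    exists_ideal (volume.restrict (Icc (0 : ℝ) 1) : Measure ℝ)
  choose e he hAe using hrep
  let E : ι → Set ℝ := fun i => if MeasurableSet (A i) then A i else e (A i)
  have hE : ∀ i, MeasurableSet (E i) := by
    intro i
    by_cases h : MeasurableSet (A i)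
    · simp only [E, if_pos h]; exact h
    · simp only [E, if_neg h]; exact he _
  have hAE : ∀ i, symmDiff (A i) (E i) ∈ I := by
    intro i
    by_cases h : MeasurableSet (A i)
    · simp only [E, if_pos h, symmDiff_self]; exact h0
    · simp only [E, if_neg h]; exact hAe _
  refine ⟨E, hE, fun i h => by simp only [E, if_pos h], ?_⟩
  intro S T hST
  have hM : MeasurableSet ((⋂ i ∈ S, E i) ∩ (⋂ i ∈ T, (E i)ᶜ) ∩ Icc (0 : ℝ) 1) :=
    ((Finset.measurableSet_biInter S (fun i _ => hE i)).inter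
      (Finset.measurableSet_biInter T (fun i _ => (hE i).compl))).inter measurableSet_Icc
  have hfin : ∀ R : Finset ι, (⋃ i ∈ R, symmDiff (A i) (E i)) ∈ I := by
    intro R
    induction R using Finset.induction_on with
    | empty => simpa using h0
    | insert a R _ ih =>
      rw [Finset.set_biUnion_insert]
      exact hun _ (hAE a) _ ih
  have hMI : ((⋂ i ∈ S, E i) ∩ (⋂ i ∈ T, (E i)ᶜ) ∩ Icc (0 : ℝ) 1) ∈ I := by
    refine hsub _ _ ?_ (hfin (S ∪ T))
    rintro x ⟨⟨hxS, hxT⟩, hx1⟩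
    by_contra hx
    simp only [mem_iUnion, not_exists, Finset.mem_union] at hx
    have hxe : x ∈ (⋂ i ∈ S, A i) ∩ (⋂ i ∈ T, (A i)ᶜ) ∩ Icc (0 : ℝ) 1 := by
      refine ⟨⟨?_, ?_⟩, hx1⟩
      · simp only [mem_iInter] at hxS ⊢
        intro i hi
        by_contra hxi
        exact hx i (Or.inl hi) (Or.inr ⟨hxS i hi, hxi⟩)
      · simp only [mem_iInter] at hxT ⊢
        intro i hi hxi
        exact hx i (Or.inr hi) (Or.inl ⟨hxi, hxT i hi⟩)
    rw [hST] at hxe
    exact hxe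
  have := hnull _ hMI hM
  rwa [Measure.restrict_apply hM, inter_eq_self_of_subset_left] at this
  exact inter_subset_right

/-- The index set of the null sets which have to be avoided. -/
abbrev Ix (ι : Type) : Type := Finset (ι ⊕ (ℚ × ℚ)) × Finset (ι ⊕ (ℚ × ℚ))

theorem exists_point {F : Type u} [TopologicalSpace F] [CompactSpace F] {f : F → ℝ}
    (hf : Continuous f) {s : ℝ → F} (hs : ∀ x ∈ Icc (0 : ℝ) 1, f (s x) = x) {ι : Type}
    (U : ι → Set F) : ∃ (E : ι → Set ℝ) (N : Ix ι → Set ℝ), (∀ i, MeasurableSet (E i)) ∧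
      (∀ j, volume (N j) = 0) ∧ ∀ t ∈ Icc (0 : ℝ) 1, (∀ j, t ∉ N j) →
        ∃ p : F, f p = t ∧ (∀ i, U i ∈ 𝓝 p → t ∈ E i) ∧ ∀ i, t ∈ E i → p ∈ closure (U i) := by
  classical
  let A : ι ⊕ (ℚ × ℚ) → Set ℝ := Sum.elim (fun i => s ⁻¹' U i) (fun q => Ioo (q.1 : ℝ) (q.2 : ℝ))
  obtain ⟨E, hE, hEA, hnull⟩ := exists_rep A
  let N : Ix ι → Set ℝ := fun j =>
    if (⋂ i ∈ j.1, A i) ∩ (⋂ i ∈ j.2, (A i)ᶜ) ∩ Icc (0 : ℝ) 1 = ∅ then
      (⋂ i ∈ j.1, E i) ∩ (⋂ i ∈ j.2, (E i)ᶜ) ∩ Icc (0 : ℝ) 1 else ∅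
  refine ⟨fun i => E (Sum.inl i), N, fun i => hE _, ?_, ?_⟩
  · intro j
    by_cases h : (⋂ i ∈ j.1, A i) ∩ (⋂ i ∈ j.2, (A i)ᶜ) ∩ Icc (0 : ℝ) 1 = ∅
    · simp only [N, if_pos h]
      exact hnull _ _ h
    · simp only [N, if_neg h]
      exact measure_empty
  intro t ht htN
  -- the finite intersection property
  have key : ∀ S T : Finset (ι ⊕ (ℚ × ℚ)), (∀ i ∈ S, t ∈ E i) → (∀ i ∈ T, t ∉ E i) →
      ((⋂ i ∈ S, A i) ∩ (⋂ i ∈ T, (A i)ᶜ) ∩ Icc (0 : ℝ) 1).Nonempty := by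
    intro S T hS hT
    by_contra h
    rw [not_nonempty_iff_eq_empty] at h
    have h1 := htN (S, T)
    simp only [N, if_pos h] at h1
    apply h1
    refine ⟨⟨?_, ?_⟩, ht⟩
    · simp only [mem_iInter]; exact hS
    · simp only [mem_iInter]; exact hT
  let 𝒮 : Set (Set ℝ) := {B | (∃ i, t ∈ E i ∧ B = A i) ∨ (∃ i, t ∉ E i ∧ B = (A i)ᶜ) ∨
    B = Icc (0 : ℝ) 1}
  have hne : (generate 𝒮).NeBot := by
    rw [generate_neBot_iff]
    intro R hR hfin
    have : ∃ S T : Finset (ι ⊕ (ℚ × ℚ)), (∀ i ∈ S, t ∈ E i) ∧ (∀ i ∈ T, t ∉ E i) ∧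
        (⋂ i ∈ S, A i) ∩ (⋂ i ∈ T, (A i)ᶜ) ∩ Icc (0 : ℝ) 1 ⊆ ⋂₀ R := by
      refine Set.Finite.induction_on_subset R hfin ?_ ?_
      · exact ⟨∅, ∅, by simp, by simp, by simp⟩
      · rintro B R' hB hR' hBR' ⟨S, T, hS, hT, hsub⟩
        rcases hR hB with ⟨i, hi, rfl⟩ | ⟨i, hi, rfl⟩ | rfl
        · refine ⟨insert i S, T, ?_, hT, ?_⟩
          · intro j hj
            rcases Finset.mem_insert.1 hj with rfl | hj
            · exact hi
            · exact hS j hj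
          · rintro x ⟨⟨hx1, hx2⟩, hx3⟩
            rw [Finset.set_biInter_insert] at hx1
            rw [sInter_insert]
            exact ⟨hx1.1, hsub ⟨⟨hx1.2, hx2⟩, hx3⟩⟩
        · refine ⟨S, insert i T, hS, ?_, ?_⟩
          · intro j hj
            rcases Finset.mem_insert.1 hj with rfl | hj
            · exact hi
            · exact hT j hj
          · rintro x ⟨⟨hx1, hx2⟩, hx3⟩
            rw [Finset.set_biInter_insert] at hx2
            rw [sInter_insert]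
            exact ⟨hx2.1, hsub ⟨⟨hx1, hx2.2⟩, hx3⟩⟩
        · refine ⟨S, T, hS, hT, ?_⟩
          rintro x hx
          rw [sInter_insert]
          exact ⟨hx.2, hsub hx⟩
    obtain ⟨S, T, hS, hT, hsub⟩ := this
    exact (key S T hS hT).mono hsub
  let D : Ultrafilter ℝ := Ultrafilter.of (generate 𝒮)
  have hD : ∀ B ∈ 𝒮, B ∈ D := fun B hB =>
    Ultrafilter.of_le (generate 𝒮) (mem_generate_of_mem hB)
  have hD1 : ∀ i, t ∈ E i → A i ∈ D := fun i hi => hD _ (Or.inl ⟨i, hi, rfl⟩)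
  have hD2 : ∀ i, t ∉ E i → (A i)ᶜ ∈ D := fun i hi => hD _ (Or.inr (Or.inl ⟨i, hi, rfl⟩))
  have hD3 : Icc (0 : ℝ) 1 ∈ D := hD _ (Or.inr (Or.inr rfl))
  have hlim : Tendsto s D (𝓝 (D.map s).lim) := (D.map s).le_nhds_lim
  refine ⟨(D.map s).lim, ?_, ?_, ?_⟩
  · have h1 : Tendsto (fun x => f (s x)) D (𝓝 (f (D.map s).lim)) :=
      (hf.tendsto _).comp hlim
    have h2 : Tendsto (fun x : ℝ => x) D (𝓝 t) := by
      rw [tendsto_order]
      constructor
      · intro a ha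
        obtain ⟨q, hq1, hq2⟩ := exists_rat_btwn ha
        obtain ⟨q', hq'1, -⟩ := exists_rat_btwn (lt_add_one t)
        have hm : t ∈ E (Sum.inr (q, q')) := by
          rw [hEA (Sum.inr (q, q')) measurableSet_Ioo]
          exact ⟨hq2, hq'1⟩
        filter_upwards [hD1 _ hm] with x hx
        exact hq1.trans hx.1
      · intro a ha
        obtain ⟨q, hq1, hq2⟩ := exists_rat_btwn ha
        obtain ⟨q', -, hq'1⟩ := exists_rat_btwn (sub_one_lt t)
        have hm : t ∈ E (Sum.inr (q', q)) := by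
          rw [hEA (Sum.inr (q', q)) measurableSet_Ioo]
          exact ⟨hq'1, hq1⟩
        filter_upwards [hD1 _ hm] with x hx
        exact lt_trans hx.2 hq2
    have h3 : Tendsto (fun x => f (s x)) D (𝓝 t) := by
      refine h2.congr' ?_
      filter_upwards [hD3] with x hx
      exact (hs x hx).symm
    exact tendsto_nhds_unique h1 h3
  · intro i hi
    by_contra hti
    have h1 : s ⁻¹' U i ∈ D := hlim hi
    have h2 := hD2 _ hti
    have h3 := inter_mem h1 h2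
    have h4 : s ⁻¹' U i ∩ (A (Sum.inl i))ᶜ = ∅ := inter_compl_self _
    rw [h4] at h3
    exact D.neBot.ne (empty_mem_iff_bot.1 h3)
  · intro i hi
    exact mem_closure_of_tendsto hlim (hD1 _ hi)

end Pool.Agent.Lib.MP_3ec723_lc
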