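import Pool.Agent.Lib.MP_3ec723_lc.Defs

/-!
# Every set is equal to a measurable set modulo a suitable ideal (Sikorski's extension theorem)

Proof. By Zorn's lemma (`zorn_subset_nonempty`, unions of chains) let `I` be maximal among the ideals
of subsets of `Ω` (closed under subsets and finite unions, `∅ ∈ I`) all of whose measurable members
are null; start with `{∅}`. Let `A ⊆ Ω`, and let `𝓔` be the set of the measurable `E` with
`E \ A ∈ I`; it is closed under finite unions and contains `∅`. Choose `E n ∈ 𝓔` with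
`μ (⋃ n, E n)` as large as possible, `E n` increasing (`sup` of `μ E` for `E ∈ 𝓔`, a sequence
approaching the supremum, finite unions), and put `E₀ = ⋃ n, E n`; then `μ (E \ E₀) = 0` for every
`E ∈ 𝓔`. Let `I' = {B | ∃ J ∈ I, B ⊆ J ∪ (A ∆ E₀)}`, an ideal. Let `M ∈ I'` be measurable,
`M ⊆ J ∪ (A ∆ E₀)`. Then `(M \ E₀) \ A ⊆ J`, so `M \ E₀ ∈ 𝓔` and so
`μ (M \ E₀) = μ ((M \ E₀) \ E₀) = 0`. And `M ∩ E₀ ∩ E n ⊆ J ∪ (E n \ A)` (a point of `M ∩ E₀` outside
`J` is in `A ∆ E₀`, so not in `A`), so `M ∩ E₀ ∩ E n ∈ I` is measurable and null; so `μ (M ∩ E₀) = 0`.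
Hence `I'` is admissible, `I' = I` by maximality, and `A ∆ E₀ ∈ I`.
-/

set_option autoImplicit false

open Set Filter MeasureTheory Topology
open scoped Cardinal

namespace Pool.Agent.Lib.MP_3ec723_lc

/-- A family of measurable sets closed under finite unions has an essential supremum. -/
private theorem ess_sup {Ω : Type} [MeasurableSpace Ω] (μ : Measure Ω) [IsFiniteMeasure μ]
    (T : Set (Set Ω)) (h0 : ∅ ∈ T) (hm : ∀ E ∈ T, MeasurableSet E)
    (hu : ∀ A ∈ T, ∀ B ∈ T, A ∪ B ∈ T) :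
    ∃ F : ℕ → Set Ω, (∀ n, F n ∈ T) ∧ ∀ E ∈ T, μ (E \ ⋃ n, F n) = 0 := by
  obtain ⟨u, hmono, hlim, hmem⟩ := exists_seq_tendsto_sSup (S := (fun E => μ E) '' T)
    ⟨_, ⟨∅, h0, rfl⟩⟩ (OrderTop.bddAbove _)
  choose E hE hEu using hmem
  set s : ENNReal := sSup ((fun E => μ E) '' T) with hs
  have hle : ∀ A ∈ T, μ A ≤ s := fun A hA => le_sSup ⟨A, hA, rfl⟩
  -- partial unions
  let F : ℕ → Set Ω := fun n => Nat.rec (E 0) (fun k G => G ∪ E (k + 1)) n
  have hF0 : F 0 = E 0 := rfl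
  have hFs : ∀ k, F (k + 1) = F k ∪ E (k + 1) := fun k => rfl
  have hFT : ∀ n, F n ∈ T := by
    intro n
    induction n with
    | zero => rw [hF0]; exact hE 0
    | succ k ih => rw [hFs]; exact hu _ ih _ (hE _)
  have hFm : Monotone F := by
    apply monotone_nat_of_le_succ
    intro n
    rw [hFs]
    exact subset_union_left
  have hEF : ∀ n, E n ⊆ F n := by
    intro n
    cases n with
    | zero => rw [hF0]
    | succ k => rw [hFs]; exact subset_union_right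
  have hmeas0 : MeasurableSet (⋃ n, F n) := MeasurableSet.iUnion fun n => hm _ (hFT n)
  have hge : s ≤ μ (⋃ n, F n) := by
    refine le_of_tendsto' hlim ?_
    intro n
    have hEn : μ (E n) = u n := hEu n
    rw [← hEn]
    exact measure_mono ((hEF n).trans (subset_iUnion F n))
  refine ⟨F, hFT, ?_⟩
  intro A hA
  have h1 : μ (A ∪ ⋃ n, F n) ≤ s := by
    rw [union_iUnion]
    have hmo : Monotone fun n => A ∪ F n := fun a b hab => union_subset_union_right _ (hFm hab)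
    rw [hmo.measure_iUnion]
    exact iSup_le fun n => hle _ (hu _ hA _ (hFT n))
  have h2 : μ (A ∪ ⋃ n, F n) = μ (⋃ n, F n) + μ (A \ ⋃ n, F n) := by
    rw [← measure_union disjoint_sdiff_right ((hm _ hA).diff hmeas0), union_sdiff_self,
      union_comm]
  have h3 : μ (⋃ n, F n) + μ (A \ ⋃ n, F n) ≤ μ (⋃ n, F n) + 0 := by
    rw [← h2, add_zero]
    exact h1.trans hge
  have h4 := (ENNReal.add_le_add_iff_left (measure_ne_top μ _)).1 h3
  exact le_antisymm h4 zero_le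

theorem exists_ideal {Ω : Type} [MeasurableSpace Ω] (μ : Measure Ω) [IsFiniteMeasure μ] :
    ∃ I : Set (Set Ω), ∅ ∈ I ∧ (∀ A B : Set Ω, B ⊆ A → A ∈ I → B ∈ I) ∧
      (∀ A ∈ I, ∀ B ∈ I, A ∪ B ∈ I) ∧ (∀ A ∈ I, MeasurableSet A → μ A = 0) ∧
      ∀ A : Set Ω, ∃ E : Set Ω, MeasurableSet E ∧ symmDiff A E ∈ I := by
  classical
  let P : Set (Set (Set Ω)) := {I | ∅ ∈ I ∧ (∀ A B : Set Ω, B ⊆ A → A ∈ I → B ∈ I) ∧
      (∀ A ∈ I, ∀ B ∈ I, A ∪ B ∈ I) ∧ (∀ A ∈ I, MeasurableSet A → μ A = 0)}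
  have hstart : ({∅} : Set (Set Ω)) ∈ P := by
    refine ⟨mem_singleton _, ?_, ?_, ?_⟩
    · intro A B hBA hA
      rw [mem_singleton_iff] at hA ⊢
      rw [hA] at hBA
      exact subset_empty_iff.1 hBA
    · intro A hA B hB
      rw [mem_singleton_iff] at hA hB ⊢
      rw [hA, hB, union_empty]
    · intro A hA _
      rw [mem_singleton_iff] at hA
      rw [hA, measure_empty]
  have hchain : ∀ c ⊆ P, IsChain (· ⊆ ·) c → c.Nonempty → ∃ ub ∈ P, ∀ s ∈ c, s ⊆ ub := by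
    intro c hc hch hne
    refine ⟨⋃₀ c, ⟨?_, ?_, ?_, ?_⟩, fun s hs => subset_sUnion_of_mem hs⟩
    · obtain ⟨I, hI⟩ := hne
      exact ⟨I, hI, (hc hI).1⟩
    · rintro A B hBA ⟨I, hI, hA⟩
      exact ⟨I, hI, (hc hI).2.1 A B hBA hA⟩
    · rintro A ⟨I, hI, hA⟩ B ⟨J, hJ, hB⟩
      rcases hch.total hI hJ with h | h
      · exact ⟨J, hJ, (hc hJ).2.2.1 A (h hA) B hB⟩
      · exact ⟨I, hI, (hc hI).2.2.1 A hA B (h hB)⟩
    · rintro A ⟨I, hI, hA⟩ hAm
      exact (hc hI).2.2.2 A hA hAm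
  obtain ⟨I, -, hImax⟩ := zorn_subset_nonempty P hchain {∅} hstart
  obtain ⟨hI0, hIs, hIu, hIn⟩ := hImax.prop
  refine ⟨I, hI0, hIs, hIu, hIn, ?_⟩
  intro A
  obtain ⟨F, hFT, hF⟩ := ess_sup μ {E | MeasurableSet E ∧ E \ A ∈ I}
    ⟨MeasurableSet.empty, by rw [empty_sdiff]; exact hI0⟩ (fun E hE => hE.1) (by
      rintro E ⟨hE1, hE2⟩ E' ⟨hE1', hE2'⟩
      exact ⟨hE1.union hE1', by rw [union_sdiff_distrib]; exact hIu _ hE2 _ hE2'⟩)
  set E₀ : Set Ω := ⋃ n, F n with hE₀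
  have hE₀m : MeasurableSet E₀ := MeasurableSet.iUnion fun n => (hFT n).1
  refine ⟨E₀, hE₀m, ?_⟩
  let I' : Set (Set Ω) := {B | ∃ J ∈ I, B ⊆ J ∪ symmDiff A E₀}
  have hI'P : I' ∈ P := by
    refine ⟨⟨∅, hI0, empty_subset _⟩, ?_, ?_, ?_⟩
    · rintro B C hCB ⟨J, hJ, hB⟩
      exact ⟨J, hJ, hCB.trans hB⟩
    · rintro B ⟨J, hJ, hB⟩ C ⟨K, hK, hC⟩
      refine ⟨J ∪ K, hIu _ hJ _ hK, ?_⟩
      rintro x (hx | hx)
      · rcases hB hx with h | h
        · exact Or.inl (Or.inl h)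
        · exact Or.inr h
      · rcases hC hx with h | h
        · exact Or.inl (Or.inr h)
        · exact Or.inr h
    · rintro M ⟨J, hJ, hM⟩ hMm
      have h1 : μ (M \ E₀) = 0 := by
        have hmem : M \ E₀ ∈ {E : Set Ω | MeasurableSet E ∧ E \ A ∈ I} := by
          refine ⟨hMm.diff hE₀m, hIs J _ ?_ hJ⟩
          rintro x ⟨⟨hxM, hxE⟩, hxA⟩
          rcases hM hxM with h | h
          · exact h
          · rcases h with ⟨h, -⟩ | ⟨h, -⟩
            · exact absurd h hxA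
            · exact absurd h hxE
        have := hF _ hmem
        rwa [sdiff_sdiff, union_self] at this
      have h2 : μ (M ∩ E₀) = 0 := by
        rw [hE₀, inter_iUnion]
        refine measure_iUnion_null ?_
        intro n
        refine hIn _ ?_ (hMm.inter (hFT n).1)
        refine hIs (J ∪ (F n \ A)) _ ?_ (hIu _ hJ _ (hFT n).2)
        rintro x ⟨hxM, hxF⟩
        have hxE : x ∈ E₀ := mem_iUnion.2 ⟨n, hxF⟩
        rcases hM hxM with h | h
        · exact Or.inl h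
        · rcases h with ⟨-, h⟩ | ⟨-, h⟩
          · exact absurd hxE h
          · exact Or.inr ⟨hxF, h⟩
      rw [← inter_union_sdiff M E₀]
      exact measure_union_null h2 h1
  have hsub : I ⊆ I' := fun B hB => ⟨B, hB, subset_union_left⟩
  have heq : I' ⊆ I := hImax.le_of_ge hI'P hsub
  exact heq ⟨∅, hI0, by rw [empty_union]⟩

end Pool.Agent.Lib.MP_3ec723_lc
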